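import Pool.Agent.Helper16.OD.RES

/-!
# Packet AMG (project OD, MP_064283_lc): amalgams of conditions
-/

namespace Pool.Agent.Helper17.OD.PkAMG

open Set Pool.Agent.Helper17.OD Pool.Agent.Helper17.OD.PkRES

/-- The trees with first component `ord i`, `j ≤ i`. -/
def Hi (j : O) (z : T) : Prop := ∃ i, j ≤ i ∧ ∃ z' : T, z = .pr (.ord i) z'

theorem hi_iff {j : O} {z : T} : Hi j z ↔ z.fst.IsOrd ∧ ¬ z.fst.llt (.ord j) := by
  constructor
  · rintro ⟨i, hi, z', rfl⟩
    exact ⟨trivial, fun h => absurd (show i < j from h) (not_lt.2 hi)⟩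
  · rintro ⟨h1, h2⟩
    match z, h1, h2 with
    | .pr (.ord i) z', _, h2 => exact ⟨i, not_lt.1 fun h => h2 h, z', rfl⟩

/-- The set coded by the amalgam. -/
def AS (s p : T) (j : O) : Set T := {z | (z ∈ dec s ∧ Lo j z) ∨ (z ∈ dec p ∧ Hi j z)}

theorem as_inM {F : FD} {s p : T} (hs : s ∈ D (Iio F.κ)) (hp : p ∈ D (Iio F.κ)) {j : O}
    (hj : j < F.κ) : AS s p j ∈ F.M := by
  have : SOM F.γ F.M F.M := F.g.m1
  refine SOM.of_SD (k := F.γ) (S := F.M) (S' := F.M) F.g.kg
    (fun z hz => hz.elim (fun h => dec_sub hs h.1) (fun h => dec_sub hp h.1)) ?_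
  have hjγ : j < F.γ := hj.trans F.g.kg
  have h1 : SD F.γ F.M F.M (fun e _ => (e ∈ dec s ∧ (e.fst.IsOrd ∧ e.fst.llt (.ord j))) ∨
      (e ∈ dec p ∧ (e.fst.IsOrd ∧ ¬ e.fst.llt (.ord j)))) :=
    ((SD.mem ST.id (SV.par (inM hs))).and
      ((SD.isOrd ST.id.fst).and (SD.llt ST.id.fst (ST.ordc hjγ)))).or
    ((SD.mem ST.id (SV.par (inM hp))).and
      ((SD.isOrd ST.id.fst).and (SD.llt ST.id.fst (ST.ordc hjγ)).not))
  refine h1.congr fun e _ σ _ => ?_
  show _ ↔ (e ∈ dec s ∧ Lo j e) ∨ (e ∈ dec p ∧ Hi j e)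
  rw [lo_iff, hi_iff]

/-- The basic facts on the amalgam. -/
structure AmP (F : FD) (s p : T) (j : O) : Prop where
  mem : am s p j ∈ F.P F.κ
  dec_eq : dec (am s p j) = AS s p j
  eqb : EqB j (am s p j) s
  high : ∀ i, j ≤ i → i < F.κ → ln (am s p j) i = ln p i ∧ ∀ x, nm (am s p j) i x = nm p i x

theorem first_eq {i i' : O} {z : T} {p : T} {x : O} (hz : z = .pr (.ord i) p)
    (h : z = .pr (.ord i') (.pr (.nat 0) (.ord x)) ∨ ∃ s : T, z = .pr (.ord i')
      (.pr (.nat 1) (.pr (.ord x) s))) : i = i' := by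
  rw [hz] at h
  rcases h with h | ⟨s, h⟩
  · injection h with h1 h2
    injection h1
  · injection h with h1 h2
    injection h1

theorem am_main (hBLD : G_BLD) (hPUN : G_PUN) (hCNC : G_CNC) (hPBD : G_PBD) (F : FD) {j : O}
    (hj : j < F.κ) {s p : T} (hs : s ∈ F.P j) (hp : p ∈ F.P F.κ) : AmP F s p j := by
  classical
  obtain ⟨b1, b2, b3, b4, b5, b6, b7, b8⟩ := hPBD F
  have hcs := ((hPUN F).2 j s).1 hs
  have hcp := ((hPUN F).2 F.κ p).1 hp
  have hsD : s ∈ D (Iio F.κ) := b2 j hs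
  have hpD : p ∈ D (Iio F.κ) := b2 F.κ hp
  let l : O → O := fun i => if i < j then ln s i else ln p i
  let N : O → O → Set T := fun i x => if i < j then nm s i x else nm p i x
  have l1 : ∀ i, i < j → l i = ln s i := fun i hi => if_pos hi
  have l2 : ∀ i, ¬ i < j → l i = ln p i := fun i hi => if_neg hi
  have n1 : ∀ i x, i < j → N i x = nm s i x := fun i x hi => if_pos hi
  have n2 : ∀ i x, ¬ i < j → N i x = nm p i x := fun i x hi => if_neg hi
  -- the set
  have hset : AS s p j = {z : T | ∃ i < F.κ, i < F.κ ∧ ∃ x < l i,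
      z = .pr (.ord i) (.pr (.nat 0) (.ord x)) ∨
      ∃ t ∈ N i x, z = .pr (.ord i) (.pr (.nat 1) (.pr (.ord x) t))} := by
    have hs8 := b8 j s hs
    have hp8 := b8 F.κ p hp
    ext z
    constructor
    · rintro (⟨hz, i, hi, z', hzz⟩ | ⟨hz, i, hi, z', hzz⟩)
      · rw [hs8] at hz
        obtain ⟨i', hi', hi'', x, hx, h⟩ := hz
        have hii : i = i' := first_eq hzz (h.imp id fun ⟨t, _, h⟩ => ⟨t, h⟩)
        subst hii
        refine ⟨i, hi'', hi'', x, by rw [l1 i hi]; exact hx, ?_⟩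
        rw [n1 i x hi]
        exact h
      · rw [hp8] at hz
        obtain ⟨i', hi', hi'', x, hx, h⟩ := hz
        have hii : i = i' := first_eq hzz (h.imp id fun ⟨t, _, h⟩ => ⟨t, h⟩)
        subst hii
        refine ⟨i, hi'', hi'', x, by rw [l2 i (not_lt.2 hi)]; exact hx, ?_⟩
        rw [n2 i x (not_lt.2 hi)]
        exact h
    · rintro ⟨i, hiκ, -, x, hx, h⟩
      by_cases hi : i < j
      · left
        rw [l1 i hi] at hx
        rw [n1 i x hi] at h
        refine ⟨?_, ?_⟩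
        · rw [hs8]
          exact ⟨i, hi, hiκ, x, hx, h⟩
        · rcases h with h | ⟨t, _, h⟩
          · exact ⟨i, hi, _, h⟩
          · exact ⟨i, hi, _, h⟩
      · right
        rw [l2 i hi] at hx
        rw [n2 i x hi] at h
        refine ⟨?_, ?_⟩
        · rw [hp8]
          exact ⟨i, hiκ, hiκ, x, hx, h⟩
        · rcases h with h | ⟨t, _, h⟩
          · exact ⟨i, not_lt.1 hi, _, h⟩
          · exact ⟨i, not_lt.1 hi, _, h⟩
  obtain ⟨-, d, hdκ, hd⟩ := b4 F.κ p hp
  obtain ⟨-, d', hdκ', hd'⟩ := b4 j s hs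
  have hPi : ∀ i < F.κ, l i < F.η i ∧ (∀ x < l i, RegO (F.P i) (F.Le i) (N i x)) ∧
      Thin F.M F.w (F.P i) (N i) (l i) := by
    intro i hiκ
    by_cases hi : i < j
    · have hN : N i = nm s i := by
        funext x
        exact n1 i x hi
      rw [l1 i hi, hN]
      exact ⟨hcs.len i hi hiκ, hcs.ro i hi hiκ, hcs.thin i hi hiκ⟩
    · have hN : N i = nm p i := by
        funext x
        exact n2 i x hi
      rw [l2 i hi, hN]
      exact ⟨hcp.len i hiκ hiκ, hcp.ro i hiκ hiκ, hcp.thin i hiκ hiκ⟩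
  obtain ⟨q, hq, hqe⟩ := hBLD F F.κ le_rfl l N
    (by
      have := as_inM (F := F) hsD hpD hj
      rw [hset] at this
      exact this)
    ⟨max d d', max_lt hdκ hdκ', fun i _ hdi => by
      by_cases hi : i < j
      · rw [l1 i hi]
        exact (hd' i ((le_max_right _ _).trans hdi)).1
      · rw [l2 i hi]
        exact (hd i ((le_max_left _ _).trans hdi)).1⟩
    (fun i _ hiκ => (hPi i hiκ).1)
    (fun i _ hiκ => (hPi i hiκ).2.1)
    (fun i _ hiκ => (hPi i hiκ).2.2)
  have hdq : dec q = AS s p j := by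
    rw [hset, b8 F.κ q hq]
    ext z
    constructor
    · rintro ⟨i, hi, hiκ, x, hx, h⟩
      obtain ⟨e1, e2⟩ := hqe i hi hiκ
      have hx' : x < l i := by rw [← e1]; exact hx
      refine ⟨i, hi, hiκ, x, hx', ?_⟩
      rw [← e2 x hx']
      exact h
    · rintro ⟨i, hi, hiκ, x, hx, h⟩
      obtain ⟨e1, e2⟩ := hqe i hi hiκ
      refine ⟨i, hi, hiκ, x, by rw [e1]; exact hx, ?_⟩
      rw [e2 x hx]
      exact h
  have hres : am s p j = q := canon_eq hCNC (canon_of hPUN hq) hdq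
  refine ⟨?_, ?_, ?_, ?_⟩
  · rw [hres]; exact hq
  · rw [hres]; exact hdq
  · rw [hres]
    intro i hi
    obtain ⟨e1, e2⟩ := hqe i (hi.trans hj) (hi.trans hj)
    refine ⟨e1.trans (l1 i hi), fun x hx => ?_⟩
    rw [e1] at hx
    exact (e2 x hx).trans (n1 i x hi)
  · rw [hres]
    intro i hi hiκ
    obtain ⟨e1, e2⟩ := hqe i hiκ hiκ
    have e3 : ln q i = ln p i := e1.trans (l2 i (not_lt.2 hi))
    refine ⟨e3, fun x => ?_⟩
    by_cases hx : x < l i
    · exact (e2 x hx).trans (n2 i x (not_lt.2 hi))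
    · have hx1 : ln q i ≤ x := by rw [e1]; exact not_lt.1 hx
      rw [b6 F.κ q hq i x hx1, b6 F.κ p hp i x (by rw [← e3]; exact hx1)]

theorem thm (hBLD : G_BLD) (hEQV : G_EQV) (hPUN : G_PUN) (hCNC : G_CNC) (hPBD : G_PBD)
    (hPIM : G_PIM) (hDEC : G_DEC) (hPRO : G_PRO) : G_AMG := by
  intro F
  obtain ⟨b1, b2, b3, b4, b5, b6, b7, b8⟩ := hPBD F
  obtain ⟨v1, v2, v3⟩ := hEQV F
  obtain ⟨r1, r2, r3, r4, r5⟩ := hPRO F
  have hun := (hPUN F).1
  have main := fun {j : O} (hj : j < F.κ) {s p : T} (hs : s ∈ F.P j) (hp : p ∈ F.P F.κ) =>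
    am_main hBLD hPUN hCNC hPBD F hj hs hp
  -- `Le` below the amalgam is `Le` below the lower part
  have low : ∀ {j : O}, j < F.κ → ∀ {s p : T}, s ∈ F.P j → p ∈ F.P F.κ → ∀ i < j, ∀ r,
      F.Le i r (am s p j) → F.Le i r s := by
    intro j hj s p hs hp i hi r hr
    exact ((v1 i (am s p j) s r (eqB_mono hi.le (main hj hs hp).eqb)).1).1 hr
  refine ⟨?_, ?_⟩
  · intro j hj s hs p hp hsp
    have A := main hj hs hp
    have hsp' := (hun j s p).1 hsp
    -- `am s p j ≤ p`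
    have hAp : ∀ {s : T}, s ∈ F.P j → F.Le j s p → F.Le F.κ (am s p j) p := by
      intro s hs hsp
      have A := main hj hs hp
      have hsp' := (hun j s p).1 hsp
      rw [hun]
      intro i hiκ
      by_cases hi : i < j
      · obtain ⟨e1, e2⟩ := A.eqb i hi
        obtain ⟨g1, g2⟩ := hsp' i hi
        refine ⟨by rw [e1]; exact g1, fun x hx r hr hrA => ?_⟩
        rw [e2 x (by rw [e1]; exact lt_of_lt_of_le hx g1)]
        exact g2 x hx r hr (low hj hs hp i hi r hrA)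
      · obtain ⟨e1, e2⟩ := A.high i (not_lt.1 hi) hiκ
        exact ⟨by rw [e1], fun x _ r _ _ => by rw [e2 x]⟩
    refine ⟨A.mem, A.eqb, A.high, hAp hs hsp, ?_, ?_, ?_, ?_⟩
    · -- the restriction of the amalgam
      refine canon_eq hCNC (canon_of hPUN hs) ?_
      ext z
      constructor
      · intro hz
        have hl : Lo j z := by
          rw [b8 j s hs] at hz
          obtain ⟨i, hi, -, x, -, h⟩ := hz
          rcases h with h | ⟨t, _, h⟩
          · exact ⟨i, hi, _, h⟩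
          · exact ⟨i, hi, _, h⟩
        refine ⟨?_, hl⟩
        rw [A.dec_eq]
        exact Or.inl ⟨hz, hl⟩
      · rintro ⟨hz, i, hi, z', hzz⟩
        rw [A.dec_eq] at hz
        rcases hz with hz | ⟨-, i', hi', z'', hzz'⟩
        · exact hz.1
        · exfalso
          rw [hzz] at hzz'
          injection hzz' with h1 h2
          injection h1 with h3
          rw [h3] at hi
          exact absurd hi (not_lt.2 hi')
    · -- monotone in `s`
      intro s' hs' hs's
      have A' := main hj hs' hp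
      have hs's' := (hun j s' s).1 hs's
      rw [hun]
      intro i hiκ
      by_cases hi : i < j
      · obtain ⟨e1, e2⟩ := A.eqb i hi
        obtain ⟨f1, f2⟩ := A'.eqb i hi
        obtain ⟨g1, g2⟩ := hs's' i hi
        refine ⟨by rw [e1, f1]; exact g1, fun x hx r hr hrA => ?_⟩
        have hx' : x < ln s i := by rw [← e1]; exact hx
        rw [e2 x hx, f2 x (by rw [f1]; exact lt_of_lt_of_le hx' g1)]
        exact g2 x hx' r hr (low hj hs' hp i hi r hrA)
      · obtain ⟨e1, e2⟩ := A.high i (not_lt.1 hi) hiκ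
        obtain ⟨f1, f2⟩ := A'.high i (not_lt.1 hi) hiκ
        exact ⟨by rw [e1, f1], fun x _ r _ _ => by rw [e2 x, f2 x]⟩
    · -- the greatest lower bound
      intro q hq hqp hqs
      have hqp' := (hun F.κ q p).1 hqp
      have hqs' := (hun j q s).1 hqs
      rw [hun]
      intro i hiκ
      by_cases hi : i < j
      · obtain ⟨e1, e2⟩ := A.eqb i hi
        obtain ⟨g1, g2⟩ := hqs' i hi
        refine ⟨by rw [e1]; exact g1, fun x hx r hr hrq => ?_⟩
        rw [e2 x hx]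
        exact g2 x (by rw [← e1]; exact hx) r hr hrq
      · obtain ⟨e1, e2⟩ := A.high i (not_lt.1 hi) hiκ
        obtain ⟨g1, g2⟩ := hqp' i hiκ
        refine ⟨by rw [e1]; exact g1, fun x hx r hr hrq => ?_⟩
        rw [e2 x]
        exact g2 x (by rw [← e1]; exact hx) r hr hrq
    · -- monotone in `p`
      intro q hq hqp hsq
      have B := main hj hs hq
      have hqp' := (hun F.κ q p).1 hqp
      rw [hun]
      intro i hiκ
      by_cases hi : i < j
      · obtain ⟨e1, e2⟩ := A.eqb i hi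
        obtain ⟨f1, f2⟩ := B.eqb i hi
        refine ⟨by rw [e1, f1], fun x hx r _ _ => ?_⟩
        rw [e2 x hx, f2 x (by rw [f1, ← e1]; exact hx)]
      · obtain ⟨e1, e2⟩ := A.high i (not_lt.1 hi) hiκ
        obtain ⟨f1, f2⟩ := B.high i (not_lt.1 hi) hiκ
        obtain ⟨g1, g2⟩ := hqp' i hiκ
        refine ⟨by rw [e1, f1]; exact g1, fun x hx r hr hrB => ?_⟩
        rw [e2 x, f2 x]
        refine g2 x (by rw [← e1]; exact hx) r hr ?_
        -- `r ≤ am s q j ≤ q` at `i`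
        have hBq : F.Le F.κ (am s q j) q := by
          have hsq' := (hun j s q).1 hsq
          rw [hun]
          intro i' hiκ'
          by_cases hi' : i' < j
          · obtain ⟨e1, e2⟩ := B.eqb i' hi'
            obtain ⟨g1, g2⟩ := hsq' i' hi'
            refine ⟨by rw [e1]; exact g1, fun x hx r hr hrA => ?_⟩
            rw [e2 x (by rw [e1]; exact lt_of_lt_of_le hx g1)]
            exact g2 x hx r hr (low hj hs hq i' hi' r hrA)
          · obtain ⟨e1, e2⟩ := B.high i' (not_lt.1 hi') hiκ'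
            exact ⟨by rw [e1], fun x _ r _ _ => by rw [e2 x]⟩
        exact r2 i q (am s q j) r hrB (r3 i F.κ (am s q j) q hiκ.le hBq)
  · have : SOM F.γ F.M F.M := F.g.m1
    have hPκ : F.P F.κ ∈ F.M := (hPIM F).2.2 F.κ le_rfl
    have hcan := (hCNC.2.2.2.2.2.2 F.γ F.M F.M inferInstance).1
    have hdec := (hDEC F.γ F.M F.M inferInstance).1
    have hκγ : F.κ < F.γ := F.g.kg
    have hdecT : ∀ {s t : T → T}, ST F.γ s → ST F.γ t →
        SD F.γ F.M F.M (fun e _ => s e ∈ dec (t e)) := fun hs ht =>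
      SD.app2 (R := fun s t => s ∈ dec t) hdec hs ht
    have hP := (hPIM F).1
    have hL := (hPIM F).2.1
    have hsd : SD F.γ F.M F.M (fun e _ =>
        (e.fst.IsOrd ∧ e.fst.llt (.ord F.κ)) ∧
        (∃ j ≤ F.κ, e.fst = .ord j ∧ e.snd.fst ∈ F.P j) ∧
        e.snd.snd.fst ∈ F.P F.κ ∧
        (∃ j ≤ F.κ, e.fst = .ord j ∧ e.snd.fst ∈ D (Iio F.κ) ∧ e.snd.snd.fst ∈ D (Iio F.κ) ∧
          F.Le j e.snd.fst e.snd.snd.fst) ∧
        Canon e.snd.snd.snd ∧ ∀ z ∈ D (Iio F.γ), (z ∈ dec e.snd.snd.snd ↔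
          ((z ∈ dec e.snd.fst ∧ (z.fst.IsOrd ∧ z.fst.llt e.fst)) ∨
           (z ∈ dec e.snd.snd.fst ∧ (z.fst.IsOrd ∧ ¬ z.fst.llt e.fst))))) := by
      refine ((SD.isOrd ST.id.fst).and (SD.llt ST.id.fst (ST.ordc hκγ))).and
        ((hP.sub (ST.id.fst.pr ST.id.snd.fst)).and ((SD.mem ST.id.snd.snd.fst
          (SV.par hPκ)).and ((hL.sub (ST.id.fst.pr (ST.id.snd.fst.pr ST.id.snd.snd.fst))).and
          ((hcan.sub ST.id.snd.snd.snd).and ?_))))
      refine SD.allT (P := fun e z _ => (z ∈ dec e.snd.snd.snd ↔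
          ((z ∈ dec e.snd.fst ∧ (z.fst.IsOrd ∧ z.fst.llt e.fst)) ∨
           (z ∈ dec e.snd.snd.fst ∧ (z.fst.IsOrd ∧ ¬ z.fst.llt e.fst))))) ?_
      exact (hdecT ST.id.fst ST.id.snd.snd.snd.snd).iff
        (((hdecT ST.id.fst ST.id.snd.snd.fst).and
          ((SD.isOrd ST.id.fst.fst).and (SD.llt ST.id.fst.fst ST.id.snd.fst))).or
        ((hdecT ST.id.fst ST.id.snd.snd.snd.fst).and
          ((SD.isOrd ST.id.fst.fst).and (SD.llt ST.id.fst.fst ST.id.snd.fst).not)))
    refine hsd.congr fun e he σ _ => ?_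
    have heA : e.snd.snd.snd ∈ D (Iio F.γ) := snd_mem (snd_mem (snd_mem he))
    have hes : e.snd.fst ∈ D (Iio F.γ) := fst_mem (snd_mem he)
    have hep : e.snd.snd.fst ∈ D (Iio F.γ) := fst_mem (snd_mem (snd_mem he))
    constructor
    · rintro ⟨h1, ⟨j', -, hj', h2⟩, h3, ⟨j'', -, hj'', -, -, h4⟩, h5, h6⟩
      obtain ⟨j, hj, hej⟩ := isOrd_lt.2 h1
      have e1 : j' = j := by
        rw [hej] at hj'
        injection hj' with h
        exact h.symm
      have e2 : j'' = j := by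
        rw [hej] at hj''
        injection hj'' with h
        exact h.symm
      subst e1
      subst e2
      refine ⟨_, hj, hej, h2, h3, h4, ?_⟩
      refine (canon_eq hCNC h5 ?_).symm
      ext z
      constructor
      · intro hz
        have hzD := dec_sub heA hz
        have h7 := (h6 z hzD).1 hz
        rw [hej] at h7
        exact h7.imp (fun h => ⟨h.1, lo_iff.2 h.2⟩) (fun h => ⟨h.1, hi_iff.2 h.2⟩)
      · intro hz
        have hzD : z ∈ D (Iio F.γ) := hz.elim (fun h => dec_sub hes h.1)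
          (fun h => dec_sub hep h.1)
        refine (h6 z hzD).2 ?_
        rw [hej]
        exact hz.imp (fun h => ⟨h.1, lo_iff.1 h.2⟩) (fun h => ⟨h.1, hi_iff.1 h.2⟩)
    · rintro ⟨j, hj, hej, h2, h3, h4, h5⟩
      have A := main hj h2 h3
      refine ⟨isOrd_lt.1 ⟨j, hj, hej⟩, ⟨j, hj.le, hej, h2⟩, h3,
        ⟨j, hj.le, hej, b2 j h2, b2 F.κ h3, h4⟩, ?_, ?_⟩
      · rw [h5]
        exact canon_of hPUN A.mem
      · intro z _
        rw [h5, A.dec_eq, hej]
        exact or_congr (and_congr_right fun _ => lo_iff) (and_congr_right fun _ => hi_iff)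

end Pool.Agent.Helper17.OD.PkAMG
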