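import Pool.Agent.Helper17.OD.GoalsMA

/-!
# Packet PJC (project OD, MP_064283_lc)
-/

namespace Pool.Agent.Helper17.OD.PkPJC

open Set Pool.Agent.Helper17.OD

theorem map_fst {L L' : Type*} (f : L → L') (t : Tr L) : (t.map f).fst = t.fst.map f := by
  cases t <;> rfl

theorem map_snd {L L' : Type*} (f : L → L') (t : Tr L) : (t.map f).snd = t.snd.map f := by
  cases t <;> rfl

theorem D_fst {L : Type*} {A : Set L} {t : Tr L} (h : t ∈ D A) : t.fst ∈ D A := by
  cases t with
  | nat n => exact h
  | ord a => exact empty_subset _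
  | pr s t => exact fun x hx => h (Or.inl hx)

theorem D_snd {L : Type*} {A : Set L} {t : Tr L} (h : t ∈ D A) : t.snd ∈ D A := by
  cases t with
  | nat n => exact h
  | ord a => exact empty_subset _
  | pr s t => exact fun x hx => h (Or.inr hx)

theorem D_pr {L : Type*} {A : Set L} {s t : Tr L} (hs : s ∈ D A) (ht : t ∈ D A) :
    Tr.pr s t ∈ D A := union_subset hs ht

theorem D_mono {L : Type*} {A B : Set L} (h : A ⊆ B) {t : Tr L} (ht : t ∈ D A) : t ∈ D B :=
  fun _ hx => h (ht hx)

theorem D_map {L L' : Type*} {A : Set L} {B : Set L'} {f : L → L'} (h : ∀ x ∈ A, f x ∈ B) :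
    ∀ {t : Tr L}, t ∈ D A → t.map f ∈ D B := by
  intro t
  induction t with
  | nat n => exact fun _ => empty_subset _
  | ord a =>
    intro ht x hx
    have hx' : x = f a := hx
    rw [hx']
    exact h a (ht rfl)
  | pr s t ihs iht =>
    intro ht
    exact D_pr (ihs fun x hx => ht (Or.inl hx)) (iht fun x hx => ht (Or.inr hx))

theorem leaf_PJ {m m' : T} {s : O → O} : ∀ (t : T), PJ m m' t (t.map s) → ∀ x ∈ t.leaves,
    PJ m m' (.ord x) (.ord (s x)) := by
  intro t
  induction t with
  | nat n => exact fun _ x hx => absurd hx (notMem_empty x)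
  | ord a =>
    intro h x hx
    have hx' : x = a := hx
    rw [hx']
    exact h
  | pr t u iht ihu =>
    intro h x hx
    rcases hx with hx | hx
    · exact iht h.fst x hx
    · exact ihu h.snd x hx

theorem isW_unique (hLTO : G_LTO.{2}) {a : O} {φ : Code} {e x y : T} (hx : IsW a φ e x)
    (hy : IsW a φ e y) : x = y := by
  rcases (hLTO O).2.2 x y with h | h | h
  · exact absurd h (hy.2.2 x hx.1 hx.2.1)
  · exact h
  · exact absurd h (hx.2.2 y hy.1 hy.2.1)

theorem thm (hLTO : G_LTO.{2}) : G_PJC := by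
  intro m m' s hm hm' hDA hP htcl hs hsA hsD hmap hin htop t t'
  constructor
  · intro h
    induction h with
    | nat n => exact ⟨empty_subset _, rfl⟩
    | @low x hx =>
      refine ⟨?_, ?_⟩
      · intro y hy
        have hy' : y = x := hy
        rw [hy']
        exact lt_of_lt_of_le hx hDA
      · show Tr.ord x = Tr.ord (s x)
        rw [hsD x hx]
    | par => exact ⟨hP, hmap.symm⟩
    | pr _ _ ih1 ih2 =>
      refine ⟨D_pr ih1.1 ih2.1, ?_⟩
      rw [ih1.2, ih2.2]
      rfl
    | fst _ ih =>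
      refine ⟨D_fst ih.1, ?_⟩
      rw [ih.2, map_fst]
    | snd _ ih =>
      refine ⟨D_snd ih.1, ?_⟩
      rw [ih.2, map_snd]
    | @inner b b' φ e e' x x' _ hb hb' _ he he' hx hx' ih1 ih2 =>
      have hbb : b' = s b := by
        have := ih1.2
        simpa [Tr.map] using this
      have hee := ih2.2
      subst hbb
      subst hee
      have hxD : x ∈ D (Iio (mA m)) := D_mono (Iio_subset_Iio hb.le) hx.1
      exact ⟨hxD, isW_unique hLTO hx' ((hin b hb e he x hxD φ).1 hx)⟩
    | @top φ e e' x x' _ _ _ he he' hav hav' hx hx' ih =>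
      have hee := ih.2
      subst hee
      exact ⟨hx.1, isW_unique hLTO hx' ((htop e he x hx.1 φ hav).2.1 hx)⟩
  · rintro ⟨ht, rfl⟩
    have key : ∀ t : T, TCl (mA m) (av (mQ m)) (Iio (mD m) ∪ (mP m).leaves) t →
        t ∈ D (Iio (mA m)) ∧ PJ m m' t (t.map s) := by
      intro t h
      induction h with
      | nat n => exact ⟨empty_subset _, PJ.nat n⟩
      | @base x hx hxa =>
        refine ⟨?_, ?_⟩
        · intro y hy
          have hy' : y = x := hy
          rw [hy']
          exact hxa
        · show PJ m m' (.ord x) (.ord (s x))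
          rcases hx with hx | hx
          · rw [hsD x hx]
            exact PJ.low hx
          · refine leaf_PJ (mP m) ?_ x hx
            rw [hmap]
            exact PJ.par
      | pr _ _ ih1 ih2 => exact ⟨D_pr ih1.1 ih2.1, PJ.pr ih1.2 ih2.2⟩
      | fst _ ih =>
        refine ⟨D_fst ih.1, ?_⟩
        rw [← map_fst]
        exact PJ.fst ih.2
      | snd _ ih =>
        refine ⟨D_snd ih.1, ?_⟩
        rw [← map_snd]
        exact PJ.snd ih.2
      | @inner b φ e x _ hb _ he hx ih1 ih2 =>
        have hxD : x ∈ D (Iio (mA m)) := D_mono (Iio_subset_Iio hb.le) hx.1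
        refine ⟨hxD, ?_⟩
        exact PJ.inner ih1.2 hb (hsA b hb) ih2.2 he
          (D_map (fun y hy => hs (mem_Iio.2 ((mem_Iio.1 hy).trans hb)) (mem_Iio.2 hb)
            (mem_Iio.1 hy)) he) hx ((hin b hb e he x hxD φ).1 hx)
      | @top φ e x _ hav hx ih =>
        obtain ⟨h1, h2⟩ := htop e ih.1 x hx.1 φ hav
        exact ⟨hx.1, PJ.top hm hm' ih.2 ih.1 (D_map (fun y hy => hsA y hy) ih.1) hav h1 hx
          (h2.1 hx)⟩
    exact (key t (htcl t ht)).2

end Pool.Agent.Helper17.OD.PkPJC
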