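import Pool.Agent.Helper17.OD.GoalsFP

/-!
# Packet RES (project OD, MP_064283_lc): restrictions of conditions
-/

namespace Pool.Agent.Helper17.OD.PkRES

open Set Pool.Agent.Helper17.OD

/-- The trees with first component `ord i`, `i < j`. -/
def Lo (j : O) (z : T) : Prop := ∃ i < j, ∃ z' : T, z = .pr (.ord i) z'

theorem lo_iff {j : O} {z : T} : Lo j z ↔ z.fst.IsOrd ∧ z.fst.llt (.ord j) := by
  constructor
  · rintro ⟨i, hi, z', rfl⟩
    exact ⟨trivial, hi⟩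
  · rintro ⟨h1, h2⟩
    match z, h1, h2 with
    | .pr (.ord i) z', _, h2 => exact ⟨i, h2, z', rfl⟩

theorem canon_of {F : FD} (hPUN : G_PUN) {j : O} {p : T} (hp : p ∈ F.P j) : Canon p :=
  ((hPUN F).2 j p).1 hp |>.canon

theorem canon_eq (hCNC : G_CNC) {p : T} (hp : Canon p) {X : Set T} (hX : dec p = X) :
    canon X = p := by
  rw [← hX]
  exact hCNC.2.1 p hp

theorem inM {F : FD} {p : T} (hp : p ∈ D (Iio F.κ)) : dec p ∈ F.M :=
  ⟨p, D_mono (Iio_subset_Iio F.g.kg.le) hp, rfl⟩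

theorem dec_sub {k : O} {p : T} (hp : p ∈ D (Iio k)) : dec p ⊆ D (Iio k) := by
  rintro x ⟨b, φ, v, hc, hv, hx, -⟩
  rw [hc] at hp
  have hb : (Tr.ord b : T) ∈ D (Iio k) := (pr_mem.1 hp).1
  have hb' : b < k := ord_mem.1 hb
  exact D_mono (Iio_subset_Iio hb'.le) hx

/-- The lower part of the set coded by a tree below `κ` is in the model. -/
theorem lo_inM {F : FD} {p : T} (hp : p ∈ D (Iio F.κ)) {j : O} (hj : j ≤ F.κ) :
    {z | z ∈ dec p ∧ Lo j z} ∈ F.M := by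
  have : SOM F.γ F.M F.M := F.g.m1
  refine SOM.of_SD (k := F.γ) (S := F.M) (S' := F.M) F.g.kg
    (fun z hz => dec_sub hp hz.1) ?_
  have hjγ : j < F.γ := lt_of_le_of_lt hj F.g.kg
  have h1 : SD F.γ F.M F.M (fun e _ => e ∈ dec p ∧ (e.fst.IsOrd ∧ e.fst.llt (.ord j))) :=
    (SD.mem ST.id (SV.par (inM hp))).and
      ((SD.isOrd ST.id.fst).and (SD.llt ST.id.fst (ST.ordc hjγ)))
  refine h1.congr fun e _ σ _ => ?_
  show _ ↔ e ∈ dec p ∧ Lo j e
  rw [lo_iff]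

theorem isOrd_le {κ : O} {t : T} : (∃ j ≤ κ, t = .ord j) ↔
    t.IsOrd ∧ (t.llt (.ord κ) ∨ t = .ord κ) := by
  constructor
  · rintro ⟨j, hj, rfl⟩
    refine ⟨trivial, ?_⟩
    rcases lt_or_eq_of_le hj with h | h
    · exact Or.inl h
    · exact Or.inr (by rw [h])
  · rintro ⟨h1, h2⟩
    match t, h1, h2 with
    | .ord j, _, h2 =>
      rcases h2 with h | h
      · exact ⟨j, le_of_lt h, rfl⟩
      · exact ⟨κ, le_rfl, h⟩

theorem isOrd_lt {κ : O} {t : T} : (∃ j < κ, t = .ord j) ↔ t.IsOrd ∧ t.llt (.ord κ) := by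
  constructor
  · rintro ⟨j, hj, rfl⟩
    exact ⟨trivial, hj⟩
  · rintro ⟨h1, h2⟩
    match t, h1, h2 with
    | .ord j, _, h2 => exact ⟨j, h2, rfl⟩

theorem eqB_symm {j : O} {p q : T} (h : EqB j p q) : EqB j q p := fun i hi =>
  ⟨(h i hi).1.symm, fun x hx => ((h i hi).2 x (by rw [(h i hi).1]; exact hx)).symm⟩

theorem eqB_trans {j : O} {p q r : T} (h : EqB j p q) (h' : EqB j q r) : EqB j p r := fun i hi =>
  ⟨(h i hi).1.trans (h' i hi).1, fun x hx => ((h i hi).2 x hx).trans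
    ((h' i hi).2 x (by rw [← (h i hi).1]; exact hx))⟩

theorem eqB_mono {i j : O} (hij : i ≤ j) {p q : T} (h : EqB j p q) : EqB i p q := fun x hx =>
  h x (lt_of_lt_of_le hx hij)

section main

variable (hBLD : G_BLD) (hEQV : G_EQV) (hPUN : G_PUN) (hCNC : G_CNC) (hPBD : G_PBD)

include hBLD hPUN hCNC hPBD in
/-- The restriction: existence. -/
theorem res_main (F : FD) {p : T} (hp : p ∈ F.P F.κ) {j : O} (hj : j ≤ F.κ) :
    res p j ∈ F.P j ∧ dec (res p j) = {z | z ∈ dec p ∧ Lo j z} ∧ EqB j (res p j) p := by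
  obtain ⟨b1, b2, b3, b4, b5, b6, b7, b8⟩ := hPBD F
  have hc := ((hPUN F).2 F.κ p).1 hp
  have hpD : p ∈ D (Iio F.κ) := b2 F.κ hp
  -- the set
  have hset : {z | z ∈ dec p ∧ Lo j z} = {z : T | ∃ i < j, i < F.κ ∧ ∃ x < ln p i,
      z = .pr (.ord i) (.pr (.nat 0) (.ord x)) ∨
      ∃ s ∈ nm p i x, z = .pr (.ord i) (.pr (.nat 1) (.pr (.ord x) s))} := by
    have h8 := b8 F.κ p hp
    ext z
    constructor
    · rintro ⟨hz, i, hi, z', rfl⟩
      rw [h8] at hz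
      obtain ⟨i', hi', hi'', x, hx, h⟩ := hz
      have hii : i = i' := by
        rcases h with h | ⟨s, _, h⟩
        · injection h with h1 h2
          injection h1
        · injection h with h1 h2
          injection h1
      subst hii
      exact ⟨i, hi, hi', x, hx, h⟩
    · rintro ⟨i, hi, hiκ, x, hx, h⟩
      refine ⟨?_, ?_⟩
      · rw [h8]
        exact ⟨i, hiκ, hiκ, x, hx, h⟩
      · rcases h with h | ⟨s, _, h⟩
        · exact ⟨i, hi, _, h⟩
        · exact ⟨i, hi, _, h⟩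
  obtain ⟨-, d, hdκ, hd⟩ := b4 F.κ p hp
  obtain ⟨q, hq, hqe⟩ := hBLD F j hj (fun i => ln p i) (fun i x => nm p i x)
    (by
      have := lo_inM (F := F) hpD hj
      rw [hset] at this
      exact this)
    ⟨d, hdκ, fun i _ hdi => (hd i hdi).1⟩
    (fun i hi hiκ => hc.len i hiκ hiκ)
    (fun i hi hiκ x hx => hc.ro i hiκ hiκ x hx)
    (fun i hi hiκ => hc.thin i hiκ hiκ)
  have hdq : dec q = {z | z ∈ dec p ∧ Lo j z} := by
    rw [hset, b8 j q hq]
    ext z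
    constructor
    · rintro ⟨i, hi, hiκ, x, hx, h⟩
      obtain ⟨e1, e2⟩ := hqe i hi hiκ
      have hx' : x < ln p i := by rw [← e1]; exact hx
      refine ⟨i, hi, hiκ, x, hx', ?_⟩
      rcases h with h | ⟨s, hs, h⟩
      · exact Or.inl h
      · exact Or.inr ⟨s, by rw [← e2 x hx']; exact hs, h⟩
    · rintro ⟨i, hi, hiκ, x, hx, h⟩
      obtain ⟨e1, e2⟩ := hqe i hi hiκ
      refine ⟨i, hi, hiκ, x, by rw [e1]; exact hx, ?_⟩
      rcases h with h | ⟨s, hs, h⟩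
      · exact Or.inl h
      · exact Or.inr ⟨s, by rw [e2 x hx]; exact hs, h⟩
  have hres : res p j = q := canon_eq hCNC (canon_of hPUN hq) hdq
  rw [hres]
  refine ⟨hq, hdq, fun i hi => ?_⟩
  have hiκ : i < F.κ := lt_of_lt_of_le hi hj
  obtain ⟨e1, e2⟩ := hqe i hi hiκ
  exact ⟨e1, fun x hx => e2 x (by rw [← e1]; exact hx)⟩

end main

theorem thm (hBLD : G_BLD) (hEQV : G_EQV) (hPUN : G_PUN) (hCNC : G_CNC) (hPBD : G_PBD)
    (hPIM : G_PIM) (hDEC : G_DEC) : G_RES := by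
  intro F
  obtain ⟨b1, b2, b3, b4, b5, b6, b7, b8⟩ := hPBD F
  obtain ⟨v1, v2, v3⟩ := hEQV F
  refine ⟨?_, ?_, ?_⟩
  · intro p hp j hj
    obtain ⟨h1, h2, h3⟩ := res_main hBLD hPUN hCNC hPBD F hp hj
    have h4 : ∀ i, j ≤ i → ln (res p j) i = 0 := fun i hi => b5 j _ h1 i hi
    refine ⟨h1, h3, h4, ?_, ?_, (v1 j _ _ p h3).2.2, (v1 j _ _ p (eqB_symm h3)).2.2, ?_⟩
    · intro i hi
      show canon {z | z ∈ dec (res p j) ∧ ∃ i' < i, ∃ z' : T, z = .pr (.ord i') z'} =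
        canon {z | z ∈ dec p ∧ ∃ i' < i, ∃ z' : T, z = .pr (.ord i') z'}
      congr 1
      ext z
      constructor
      · rintro ⟨hz, hl⟩
        rw [h2] at hz
        exact ⟨hz.1, hl⟩
      · rintro ⟨hz, i', hi', z', rfl⟩
        refine ⟨?_, i', hi', z', rfl⟩
        rw [h2]
        exact ⟨hz, i', lt_of_lt_of_le hi' hi, z', rfl⟩
    · intro hpj
      refine canon_eq hCNC (canon_of hPUN hpj) ?_
      ext z
      constructor
      · intro hz
        refine ⟨hz, ?_⟩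
        rw [b8 j p hpj] at hz
        obtain ⟨i, hi, -, x, -, h⟩ := hz
        rcases h with h | ⟨s, _, h⟩
        · exact ⟨i, hi, _, h⟩
        · exact ⟨i, hi, _, h⟩
      · exact fun hz => hz.1
    · exact (v3 j F.κ hj p (res p j) (fun x hx _ => h4 x hx)).1 (v1 j _ _ p (eqB_symm h3)).2.2
  · intro p hp q hq j hj h
    obtain ⟨h1, h2, h3⟩ := res_main hBLD hPUN hCNC hPBD F hp hj
    obtain ⟨g1, g2, g3⟩ := res_main hBLD hPUN hCNC hPBD F hq hj
    exact v2 j hj _ h1 _ g1 (eqB_trans h3 (eqB_trans h (eqB_symm g3)))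
  · have : SOM F.γ F.M F.M := F.g.m1
    have hPκ : F.P F.κ ∈ F.M := (hPIM F).2.2 F.κ le_rfl
    have hcan := (hCNC.2.2.2.2.2.2 F.γ F.M F.M inferInstance).1
    have hdec := (hDEC F.γ F.M F.M inferInstance).1
    have hκγ : F.κ < F.γ := F.g.kg
    -- the defining formula
    have hdecT : ∀ {s t : T → T}, ST F.γ s → ST F.γ t →
        SD F.γ F.M F.M (fun e _ => s e ∈ dec (t e)) := fun hs ht =>
      SD.app2 (R := fun s t => s ∈ dec t) hdec hs ht
    have hsd : SD F.γ F.M F.M (fun e _ =>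
        (e.fst.IsOrd ∧ (e.fst.llt (.ord F.κ) ∨ e.fst = .ord F.κ)) ∧ e.snd.fst ∈ F.P F.κ ∧
        Canon e.snd.snd ∧ ∀ z ∈ D (Iio F.γ), (z ∈ dec e.snd.snd ↔
          (z ∈ dec e.snd.fst ∧ (z.fst.IsOrd ∧ z.fst.llt e.fst)))) := by
      refine ((SD.isOrd ST.id.fst).and ((SD.llt ST.id.fst (ST.ordc hκγ)).or
        (SD.eq ST.id.fst (ST.ordc hκγ)))).and
        ((SD.mem ST.id.snd.fst (SV.par hPκ)).and ((hcan.sub ST.id.snd.snd).and ?_))
      refine SD.allT (P := fun e z _ => (z ∈ dec e.snd.snd ↔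
          (z ∈ dec e.snd.fst ∧ (z.fst.IsOrd ∧ z.fst.llt e.fst)))) ?_
      exact (hdecT ST.id.fst ST.id.snd.snd.snd).iff ((hdecT ST.id.fst ST.id.snd.snd.fst).and
        ((SD.isOrd ST.id.fst.fst).and (SD.llt ST.id.fst.fst ST.id.snd.fst)))
    refine hsd.congr fun e he σ _ => ?_
    have he2 : e.snd.snd ∈ D (Iio F.γ) := snd_mem (snd_mem he)
    have he1 : e.snd.fst ∈ D (Iio F.γ) := fst_mem (snd_mem he)
    constructor
    · rintro ⟨h1, h2, h3, h4⟩
      obtain ⟨j, hj, hej⟩ := isOrd_le.2 h1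
      refine ⟨j, hj, hej, h2, ?_⟩
      refine (canon_eq hCNC h3 ?_).symm
      ext z
      constructor
      · intro hz
        have hzD := dec_sub he2 hz
        have h5 := (h4 z hzD).1 hz
        rw [hej] at h5
        exact ⟨h5.1, lo_iff.2 h5.2⟩
      · rintro ⟨hz, hl⟩
        have hzD := dec_sub he1 hz
        refine (h4 z hzD).2 ⟨hz, ?_⟩
        rw [hej]
        exact lo_iff.1 hl
    · rintro ⟨j, hj, hej, h2, h3⟩
      obtain ⟨g1, g2, -⟩ := res_main hBLD hPUN hCNC hPBD F h2 hj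
      refine ⟨isOrd_le.1 ⟨j, hj, hej⟩, h2, ?_, ?_⟩
      · rw [h3]
        exact canon_of hPUN g1
      · intro z _
        rw [h3, g2, hej]
        exact and_congr_right fun _ => lo_iff

end Pool.Agent.Helper17.OD.PkRES
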